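import Pool.Agent.Run7.h370.NV.Grp

/-!
# Positive scalar curvature and automorphism groups of virtually nilpotent-by-abelian groups

Let `M` be a closed aspherical spin manifold whose fundamental group is a subgroup of one of the groups
which are shown to be exact below. Exact groups embed coarsely into a Hilbert space, so the strong Novikov conjecture holds for the
fundamental group (Yu, Higson, Skandalis-Tu-Yu), and `M` has no metric of positive scalar curvature
(Rosenberg), as asserted in Q1.

This theorem of helper370 was first handed in for the strong Novikov conjecture
(`MP_4e1912_gt.AutVirtuallyNilpotentByAbelian`).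

(1) Let `G` be a finitely generated group with a subgroup `H` of finite index whose derived subgroup
`[H, H]` is nilpotent. For example: all finitely generated metabelian groups, all finitely generated
virtually solvable linear groups over fields, all polycyclic-by-finite groups, all finitely generated
solvable groups of finite rank. Then `Aut G` and `Out G` are exact (Yu's property A) and embed coarsely
into a Hilbert space. So their subgroups satisfy the strong Novikov conjecture.

(2) Every group `P` with a homomorphism to `Aut G` or `Out G` with exact kernel is exact.

(3) The group of the automorphisms of a finitely generated module over an arbitrary commutative ring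
is exact, and so is every group with a homomorphism to it with exact kernel. (The free modules are the
theorem of Guentner, Higson and Weinberger.)

Outline. (3) For a noetherian ring `R` one shows by noetherian induction over ideals `I` that
`Aut_R(M)` is exact if `I M = 0`: if `a b` is in `I` and `a`, `b` are not, one uses the fully invariant
submodule `b M`; if `I` is prime, one uses the torsion submodule of the `R / I`-module `M`, and a
torsion-free module embeds in a vector space over the field of fractions. For general `R` one restricts
to finitely generated subgroups, the entries of the matrices of the generators and their inverses, and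
the module over the subring of these entries. (1) If `[G, G]` is nilpotent, the group of the
automorphisms which are trivial on `G / [[G, G], [G, G]]` is solvable. If `M = [G, G]` is abelian, then
`M` is a finitely generated module over the commutative ring generated by the conjugations, and the
automorphisms which are trivial on `G / M` are linear over this ring; the ones which are also trivial on
`M` commute. If `K` is characteristic of finite index in `G`, the automorphisms of `G` which are trivial on
`K` and on `G / K` commute.
-/

set_option autoImplicit false

namespace Pool.Agent.Results.MP_df705a_gt.AutVirtuallyNilpotentByAbelian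

open Pool.Agent.N506.EX Pool.Agent.Run7.h822.AU Run7.h370.NV

theorem result :
    (∀ (G : Type) [Group G] [Group.FG G] (H : Subgroup G) [H.FiniteIndex],
      Group.IsNilpotent ↥(⁅H, H⁆ : Subgroup G) →
        ((IsExact (MulAut G) ∧ CoarselyEmbeds (MulAut G)) ∧
          (IsExact (Out G) ∧ CoarselyEmbeds (Out G))) ∧
        (∀ (P : Type) [Group P] (φ : P →* MulAut G), IsExact φ.ker →
          IsExact P ∧ (Countable P → CoarselyEmbeds P)) ∧
        (∀ (P : Type) [Group P] (φ : P →* Out G), IsExact φ.ker →
          IsExact P ∧ (Countable P → CoarselyEmbeds P))) ∧
    (∀ (R M : Type) [CommRing R] [AddCommGroup M] [Module R M] [Module.Finite R M]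
      (P : Type) [Group P] (φ : P →* (M ≃ₗ[R] M)), IsExact φ.ker →
        IsExact P ∧ (Countable P → CoarselyEmbeds P)) := by
  refine ⟨?_, ?_⟩
  · intro G _ _ H _ h
    have h1 : Ex (MulAut G) := ex_aut_virt H h
    have h2 : Countable (MulAut G) := Run7.h370.NV.countable_aut
    have h3 : IsExact (Out G) := exact_out_virt H h
    have h4 : Countable (Out G) :=
      (QuotientGroup.mk'_surjective (Inn G)).countable
    refine ⟨⟨⟨h1.isExact, h1.isExact.coarselyEmbeds⟩, h3, h3.coarselyEmbeds⟩, ?_, ?_⟩
    · intro P _ φ hφ
      have h5 : IsExact P := (Ex.ext φ h1 hφ.ex).isExact
      exact ⟨h5, fun _ => h5.coarselyEmbeds⟩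
    · intro P _ φ hφ
      have h5 : IsExact P := (Ex.ext φ h3.ex hφ.ex).isExact
      exact ⟨h5, fun _ => h5.coarselyEmbeds⟩
  · intro R M _ _ _ _ P _ φ hφ
    have h1 : Ex (M ≃ₗ[R] M) :=
      (Ex.equiv (LinearMap.GeneralLinearGroup.generalLinearEquiv R M)).1 (em_general R M)
    have h5 : IsExact P := (Ex.ext φ h1 hφ.ex).isExact
    exact ⟨h5, fun _ => h5.coarselyEmbeds⟩

end Pool.Agent.Results.MP_df705a_gt.AutVirtuallyNilpotentByAbelian
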