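import Pool.Agent.Run7.h16.GE.KC

/-!
Positive scalar curvature on closed aspherical spin manifolds: fundamental groups with a normal
subgroup of rational dimension one, and quotients by commutator subgroups.

`kC` is the functor `G ↦ ℚ ⊗ K_0(C*_max G)`, and `hq j` is the functor `G ↦ H_j(G; ℚ)`. The class `𝒦`
is the class of the groups `G` with `InjAssembly G`: for every group `T` and every family of
transformations `α_{j,i} : H_j(G; ℚ) → ℚ ⊗ K_0(C*_max (G × T))`, `i ∈ I_j`, natural in the group `G`,
such that the `α_{j,i}`, `i ∈ I_j`, are linearly independent on `ℤ^j` for each `j`, the sum of all the
`α_{j,i}` is injective on `G`.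

* Let `K` be a normal subgroup of `G` with `H_q(K; ℚ) = 0` for `q ≥ 2`, and let `L ≤ K` be a normal
  subgroup of `G` such that each element of `L` has a positive power in `[K, K]`. If `G / L` is in the
  class, then `G` is in the class.
* If `K` is a virtually free normal subgroup of `G` and `G / [K, K]` is in the class, then so is `G`.
  (For instance `K` may be a free subgroup of infinite rank of the fundamental group of a closed
  aspherical manifold.)
* If `P` is virtually free, `S` and `L ≤ [S, S]` are normal subgroups of `P` and `H_q(S / L; ℚ) = 0`
  for `q ≥ 2`, then `P / L` is in the class.
* Let `Q` act on a set `V` and on the free group `F(V)` such that each `q` maps each generator `v` to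
  a conjugate of the generator `q v`. If the pointwise stabilizers in `Q` of the finite subsets of `V`
  are in the class, then `F(V) ⋊ Q` is in the class.

**Scalar curvature.** Let `M` be a closed spin manifold with fundamental group `G`. Its index in
`ℚ ⊗ K_0(C*_max (G × ℤ))` is the sum of the images of the components of `Â(M) ∩ [M] ∈ ⨁ H_j(G; ℚ)`
under the rational assembly maps `α_j`, which are natural in `G` and injective on `ℤ^j`, and it
vanishes if `M` has a metric of positive scalar curvature (Rosenberg). These facts are the fields of
the structure `SpinTheory`. If `M` is aspherical and `G` is in the class then the index is not zero,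
so **closed aspherical spin manifolds with fundamental group in `𝒦` have no metric of positive scalar
curvature** (`NoPositive`).

Outline of the proof. The chains of `G` modulo `K` form a complex of `ℚ[G / K]`-modules with homology
only in the degrees `0` and `1`, and `L` acts trivially on the edges modulo boundaries. So the
projection from the chains of `G` to the chains of `G` modulo `K` factors, up to an equivariant
homotopy, through the chains of `G / L`, and `H_j(G; ℚ) → H_j(G / L; ℚ)` is injective. (The homological
part is that of my result `MP_01534c_gt` CommutatorQuotients on the higher signatures.)
-/

namespace Pool.Agent.Results.MP_df705a_gt.CommutatorQuotients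

open Run7.h16.GE Run7.h16.NC

theorem result :
    QuotClosed (fun G _ => InjAssembly G) ∧ NoPositive (fun G _ => InjAssembly G) :=
  ⟨quotClosed_det Pool.Agent.Y483.PW.hasPT_kC, noPositive⟩

end Pool.Agent.Results.MP_df705a_gt.CommutatorQuotients
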