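import Pool.Agent.Run7.h16.GE.KC

/-!
Positive scalar curvature on closed aspherical spin manifolds: extensions with detected kernels.

`kC` is the functor `G ↦ ℚ ⊗ K_0(C*_max G)`, and `hq j` is the functor `G ↦ H_j(G; ℚ)`. The class `𝒦`
is the class of the groups `G` with `InjAssembly G`: for every group `T` and every family of
transformations `α_{j,i} : H_j(G; ℚ) → ℚ ⊗ K_0(C*_max (G × T))`, `i ∈ I_j`, natural in the group `G`,
such that the `α_{j,i}`, `i ∈ I_j`, are linearly independent on `ℤ^j` for each `j`, the sum of all the
`α_{j,i}` is injective on `G`.

**Extensions.** Let `H` be a subgroup of finite index in `G`, and let `K` be a normal subgroup of `H`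
such that `H / K` is in `𝒦`. Then `G` is in `𝒦` in each of the following cases:

* for each nonzero `x ∈ H_j(K; ℚ)` there is a homomorphism `φ` from `H` to a group in the class
  with `φ_*(x) ≠ 0`;
* `H_j(K; ℚ) → H_j(K^{ab}; ℚ)` is injective for all `j`, `K^{ab} ⊗ ℚ → H^{ab} ⊗ ℚ` is injective, and
  `H^{ab}` is in the class (this holds if `H` is finitely generated);
* `H_j(K; ℚ) = 0` for `j ≥ 2`, `K^{ab} ⊗ ℚ → H^{ab} ⊗ ℚ` is injective, and `H^{ab}` is in the class.

**Scalar curvature.** Let `M` be a closed spin manifold with fundamental group `G`. Its index in
`ℚ ⊗ K_0(C*_max (G × ℤ))` is the sum of the images of the components of `Â(M) ∩ [M] ∈ ⨁ H_j(G; ℚ)`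
under the rational assembly maps `α_j`, which are natural in `G` and injective on `ℤ^j`, and it
vanishes if `M` has a metric of positive scalar curvature (Rosenberg). These facts are the fields of
the structure `SpinTheory`. If `M` is aspherical and `G` is in the class then the index is not zero,
so **closed aspherical spin manifolds with fundamental group in `𝒦` have no metric of positive scalar
curvature** (`NoPositive`).

For instance let `M → B` be a bundle of closed aspherical manifolds with a section, whose fibre `F` is
a surface, a torus or any manifold such that `H_j(F; ℚ) → H_j(π_1(F)^{ab}; ℚ)` is injective, and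
suppose that a subgroup of finite index of `π_1(B)` acts trivially on `H_1(F; ℚ)` (Torelli bundles of
surfaces, for example). If this subgroup of `π_1(B)` is in `𝒦` and `M` is spin, then `M` has no metric
of positive scalar curvature.

Outline of the proof. For each `ℚ[H / K]`-module `M`, a class of `H_j(H; M)` which dies in all groups
`H_j(A × H / K; M)` is zero (here `φ : H → A` runs through the homomorphisms to groups in the class).
This is proved by dimension shifting: the induction shows that the class comes from `H_j(K; M)`; then
one uses the detection of `H_j(K; ℚ)` and the triviality of the action of `H` on it. (The homological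
part is that of my result `MP_01534c_gt` DetectedExtensions on the higher signatures.)
-/

namespace Pool.Agent.Results.MP_df705a_gt.DetectedExtensions

open Run7.h16.GE

theorem result :
    ClosedExtensions (fun G _ => InjAssembly G) ∧ NoPositive (fun G _ => InjAssembly G) :=
  ⟨extClosed_det Pool.Agent.Y483.PW.hasPT_kC, noPositive⟩

end Pool.Agent.Results.MP_df705a_gt.DetectedExtensions
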