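import Pool.Agent.Run7.h16.GE.KC

/-!
Positive scalar curvature on closed aspherical spin manifolds: fundamental groups with a normal
subgroup which has a system of retractions (for instance a free product, a graph product, or a
right-angled Artin group).

`kC` is the functor `G ↦ ℚ ⊗ K_0(C*_max G)`, and `hq j` is the functor `G ↦ H_j(G; ℚ)`. The class `𝒦`
is the class of the groups `G` with `InjAssembly G`: for every group `T` and every family of
transformations `α_{j,i} : H_j(G; ℚ) → ℚ ⊗ K_0(C*_max (G × T))`, `i ∈ I_j`, natural in the group `G`,
such that the `α_{j,i}`, `i ∈ I_j`, are linearly independent on `ℤ^j` for each `j`, the sum of all the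
`α_{j,i}` is injective on `G`.

**Retractions.** Let `H` be a subgroup of finite index in `G`, and let `K` be a normal subgroup of
`H`. Then `G` is in the class in each of the following cases.

* There are endomorphisms `f_i` of `H` (`i ∈ I`, `I` nonempty) which induce the identity on `H / K`,
  the images `f_i(H)` are in the class, the restrictions of the `f_i` to `K` are idempotent and
  commute, the product of two of them is one of them or trivial, and `H_n(K; ℚ)` is the sum of their
  images for all `n`.
* `K` is the quotient of a free product of groups `P_v`, `v ∈ V`, by local relations, and for each
  nonempty finite set `σ` of pairwise linked indices there is a subgroup `B_σ` of `H` in the class with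
  `B_σ K = H` such that `B_σ ∩ K` is the subgroup `K_σ` generated by the images of the `P_v`, `v ∈ σ`.
* `K` is a graph product, and the same holds for each nonempty finite clique `σ` of the graph.
* `K` is the free product of nontrivial groups `K_v`, such that each element of `H` conjugates each
  `K_v` to a subgroup conjugate to it in `K`, and the normalizers of the `K_v` in `H` are in the class.

No assumption on `H / K` itself is needed.

**Scalar curvature.** Let `M` be a closed spin manifold with fundamental group `G`. Its index in
`ℚ ⊗ K_0(C*_max (G × ℤ))` is the sum of the images of the components of `Â(M) ∩ [M] ∈ ⨁ H_j(G; ℚ)`
under the rational assembly maps `α_j`, which are natural in `G` and injective on `ℤ^j`, and it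
vanishes if `M` has a metric of positive scalar curvature (Rosenberg). These facts are the fields of
the structure `SpinTheory`. If `M` is aspherical and `G` is in the class then the index is not zero,
so **closed aspherical spin manifolds with fundamental group in `𝒦` have no metric of positive scalar
curvature** (`NoPositive`).

Outline of the proof. Let `y` be a class of `H_n(K; M)`, for a `ℚ[H / K]`-module `M`, whose image in
`H_n(H; M)` is killed by all `f_i`. The classes `e_i y` (`e_i` is the restriction of `f_i` to `K`) die
in `H_n(H; M)`, so `y` and `∏ (1 - e_i) y` have the same image there. As `y` is a sum of classes in the
images of the `e_i`, the latter class is zero for a suitable finite product. By dimension shifting this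
shows that `H_n(H; M)` is detected by the `f_i` for all `M`. For a local quotient `K` the retraction of
`K` to `K_σ` extends to `H → B_σ`, as its kernel is normal in `H`. (The homological part is that of my
result `MP_01534c_gt` RetractionSystems on the higher signatures.)
-/

namespace Pool.Agent.Results.MP_df705a_gt.RetractionSystems

open Run7.h16.GE Run7.h16.DS

theorem result :
    SysClosed (fun G _ => InjAssembly G) ∧ NoPositive (fun G _ => InjAssembly G) :=
  ⟨sysClosed_det Pool.Agent.Y483.PW.hasPT_kC, noPositive⟩

end Pool.Agent.Results.MP_df705a_gt.RetractionSystems
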